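import Mathlib

set_option autoImplicit false

namespace Pool.Agent.CycId

open Matroid Set MvPolynomial

variable {α : Type}

/-- `M` is binary: representable over the field with two elements. -/
def IsBinary (M : Matroid α) : Prop :=
  ∃ (n : ℕ) (φ : α → Fin n → ZMod 2), ∀ I ⊆ M.E, M.Indep I ↔ LinearIndepOn (ZMod 2) φ I

/-- `M` is connected: nonempty, and any two distinct elements lie in a common circuit. -/
def IsConn (M : Matroid α) : Prop :=
  M.E.Nonempty ∧ ∀ e ∈ M.E, ∀ f ∈ M.E, e ≠ f → ∃ C, M.IsCircuit C ∧ e ∈ C ∧ f ∈ C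

/-- `M` is simple: no loops and no parallel pairs. -/
def IsSimple (M : Matroid α) : Prop := ∀ C, M.IsCircuit C → 3 ≤ C.encard

/-- `N` is isomorphic to the cycle matroid of the complete graph on five vertices. -/
def IsK5 (N : Matroid α) : Prop :=
  ∃ g : α → Sym2 (Fin 5), BijOn g N.E (⊤ : SimpleGraph (Fin 5)).edgeSet ∧
    ∀ I ⊆ N.E, N.Indep I ↔ (SimpleGraph.fromEdgeSet (g '' I)).IsAcyclic

/-- One deletion, series contraction or coloop contraction. -/
def Step (M N : Matroid α) : Prop :=
  ∃ e ∈ M.E, N = M ＼ {e} ∨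
    (((∃ f, f ≠ e ∧ M.IsCocircuit {e, f}) ∨ M.IsColoop e) ∧ N = M ／ {e})

/-- A cycle is a disjoint union of circuits. -/
def IsCyc (M : Matroid α) (D : Finset α) : Prop :=
  ∃ S : Set (Set α), (∀ C ∈ S, M.IsCircuit C) ∧ S.PairwiseDisjoint id ∧ (D : Set α) = ⋃₀ S

/-- The cycle ideal. -/
noncomputable def cycIdeal (K : Type) [Field K] (M : Matroid α) :
    Ideal (MvPolynomial {D : Finset α // IsCyc M D} K) :=
  RingHom.ker (aeval fun D : {D : Finset α // IsCyc M D} =>
    (X none * ∏ e ∈ D.1, X (some e) : MvPolynomial (Option α) K))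

/-- The vector matroid. -/
noncomputable def vecM [Finite α] {k V : Type} [Field k] [AddCommGroup V] [Module k V]
    (φ : α → V) : Matroid α :=
  (IndepMatroid.ofFinite (E := univ) finite_univ (LinearIndepOn k φ) (by simp)
    (fun _ _ h h' => h.mono h') (by
      intro I J hI hJ hIJ
      classical
      by_contra h
      push Not at h
      have := Fintype.ofFinite I
      have := Fintype.ofFinite J
      have h1 : Submodule.span k (range fun j : J => φ j) ≤
          Submodule.span k (range fun j : I => φ j) := by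
        rw [Submodule.span_le]
        rintro _ ⟨⟨e, he⟩, rfl⟩
        by_cases h2 : e ∈ I
        · exact Submodule.subset_span ⟨⟨e, h2⟩, rfl⟩
        · have h3 := h e he h2
          rw [linearIndepOn_insert h2, not_and_or, not_not, image_eq_range] at h3
          exact h3.resolve_left (not_not.2 hI)
      have : FiniteDimensional k (Submodule.span k (range fun j : I => φ j)) :=
        FiniteDimensional.span_of_finite _ (finite_range _)
      have h2 := Submodule.finrank_mono h1
      rw [finrank_span_eq_card hI, finrank_span_eq_card hJ] at h2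
      rw [← Nat.card_coe_set_eq, ← Nat.card_coe_set_eq, Nat.card_eq_fintype_card,
        Nat.card_eq_fintype_card] at hIJ
      omega) (fun _ _ => subset_univ _)).matroid

lemma li2 {V : Type} [AddCommGroup V] [Module (ZMod 2) V] (φ : α → V) (I : Set α) :
    LinearIndepOn (ZMod 2) φ I ↔ ∀ T : Finset α, ↑T ⊆ I → ∑ e ∈ T, φ e = 0 → T = ∅ := by
  classical
  rw [linearIndepOn_iff']
  refine ⟨fun h T hT h0 => Finset.eq_empty_of_forall_notMem fun e he =>
    one_ne_zero (h T (fun _ => 1) hT (by simpa using h0) e he), fun h T g hT h0 e he => ?_⟩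
  have h1 : ∀ x : ZMod 2, x ≠ 0 → x = 1 := by decide
  have := h (T.filter fun i => g i ≠ 0) (fun i hi => hT (Finset.mem_filter.1 hi).1) (by
    rw [← h0, Finset.sum_filter]
    refine Finset.sum_congr rfl fun i _ => ?_
    split_ifs with h2
    · rw [h1 _ h2, one_smul]
    · rw [not_not.1 h2, zero_smul])
  by_contra h2
  have h3 : e ∈ T.filter fun i => g i ≠ 0 := Finset.mem_filter.2 ⟨he, h2⟩
  rw [this] at h3
  simp at h3

lemma toric {σ τ K : Type} [Field K] (A : (σ →₀ ℕ) → τ →₀ ℕ)
    (ψ : MvPolynomial σ K →ₐ[K] MvPolynomial τ K)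
    (hψ : ∀ m c, ψ (monomial m c) = monomial (A m) c) (f : MvPolynomial σ K) (hf : ψ f = 0)
    (h : InjOn A f.support) : f = 0 := by
  classical
  ext m
  by_contra h1
  have hm : m ∈ f.support := mem_support_iff.2 h1
  have h2 := congrArg (coeff (A m)) hf
  rw [f.as_sum, map_sum, coeff_sum, Finset.sum_eq_single m (fun u hu hum => by
    rw [hψ, coeff_monomial, if_neg fun h3 => hum (h hu hm h3)]) (fun h3 => absurd hm h3), hψ,
    coeff_monomial, if_pos rfl] at h2
  exact h1 h2

lemma k5 {N : Matroid α} (h : IsK5 N) : N.E.encard = 10 ∧ ∃ I, N.Indep I ∧ I.encard = 4 := by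
  obtain ⟨g, hg, h⟩ := h
  have e1 : (⊤ : SimpleGraph (Fin 5)).edgeSet.encard = 10 := by
    rw [← SimpleGraph.coe_edgeFinset, encard_coe_eq_coe_finsetCard,
      SimpleGraph.card_edgeFinset_top_eq_card_choose_two]
    rfl
  refine ⟨by rw [← e1, ← hg.image_eq, hg.injOn.encard_image], ?_⟩
  obtain ⟨I, hI, hb⟩ := (subset_image_iff).1
    ((SimpleGraph.edgeSet_mono (le_top (a := SimpleGraph.starGraph (0 : Fin 5)))).trans
      hg.image_eq.symm.subset)
  refine ⟨I, (h I hI).2 ?_, ?_⟩
  · rw [hb, SimpleGraph.fromEdgeSet_edgeSet]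
    exact SimpleGraph.isAcyclic_starGraph _
  · rw [← (hg.injOn.mono hI).encard_image, hb, ← SimpleGraph.coe_edgeFinset,
      encard_coe_eq_coe_finsetCard]
    have := (SimpleGraph.isTree_starGraph (0 : Fin 5)).card_edgeFinset
    rw [Fintype.card_fin] at this
    have h2 : (SimpleGraph.starGraph (0 : Fin 5)).edgeFinset.card = 4 := by omega
    rw [h2]
    rfl

lemma no_k5 {M : Matroid α} (hs : IsSimple M✶) (h4 : ∀ I, M✶.Indep I → I.encard ≤ 4)
    (h10 : M.E.encard ≠ 10) : ¬ ∃ N, Relation.ReflTransGen Step M N ∧ IsK5 N✶ := by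
  rintro ⟨N, hN, h5⟩
  obtain ⟨h1, I, hI, h2⟩ := k5 h5
  have key : N = M ∨ ∀ I, N✶.Indep I → I.encard ≤ 3 := by
    clear h5 h1 hI
    induction hN with
    | refl => exact .inl rfl
    | tail _ hst ih =>
      right
      obtain ⟨e, he, hst⟩ := hst
      rcases ih with rfl | ih
      · rcases hst with rfl | ⟨h | h, _⟩
        · intro J hJ
          have hn : _ := isNonloop_of_not_isLoop (M := _✶) he fun h => by
            simpa using hs _ h.isCircuit
          rw [dual_delete, hn.contractElem_indep_iff] at hJ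
          have := h4 _ hJ.2
          rw [encard_insert_of_notMem hJ.1] at this
          exact (ENat.add_le_add_iff_right (k := 1) (by simp)).1 this
        · obtain ⟨f, -, h⟩ := h
          have := (hs _ h).trans (encard_insert_le _ _)
          rw [encard_singleton] at this
          exact absurd this (by decide)
        · simpa using hs _ h.dual_isLoop.isCircuit
      · intro J hJ
        rcases hst with rfl | ⟨-, rfl⟩
        · rw [dual_delete] at hJ
          exact ih _ hJ.of_contract
        · rw [dual_contract] at hJ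
          exact ih _ hJ.of_delete
  rcases key with rfl | key
  · exact h10 h1
  · have := key I hI
    rw [h2] at this
    exact absurd this (by decide)

end Pool.Agent.CycId
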