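import Pool.Agent.H.MP_1f7bca_co.A

set_option autoImplicit false

namespace Pool.Agent.CycId

open Matroid Set MvPolynomial

def bt (j : Fin 4) (n : ℕ) : ZMod 2 := if n.testBit j.1 then 1 else 0

def un : Fin 4 → Fin 14 := ![0, 1, 3, 7]

def ph (e i : Fin 14) : ZMod 2 :=
  (if e = i then 1 else 0) - ∑ j, if e = un j then bt j (i.1 + 1) else 0

def Dx (x : Fin 16) : Finset (Fin 14) :=
  Finset.univ.filter fun i => ∑ j, bt j x.1 * bt j (i.1 + 1) = 1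

noncomputable def M0 : Matroid (Fin 14) := vecM (k := ZMod 2) ph

lemma M0_E : M0.E = univ := rfl

lemma d1 : ∀ x, ∀ i, ∑ e ∈ Dx x, ph e i = 0 := by decide +kernel

lemma d2 : ∀ b : Fin 4 → ZMod 2, ∃ x, ∀ i : Fin 14,
    (∑ j, b j * bt j (i.1 + 1) = 1 ↔ i ∈ Dx x) := by decide +kernel

lemma zs (T : Finset (Fin 14)) : ∑ e ∈ T, ph e = 0 ↔ ∃ x, T = Dx x := by
  refine ⟨fun h => ?_, fun ⟨x, h⟩ => funext fun i => by rw [h, Finset.sum_apply, d1]; rfl⟩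
  obtain ⟨x, hx⟩ := d2 fun j => if un j ∈ T then 1 else 0
  refine ⟨x, Finset.ext fun i => Iff.trans ?_ (hx i)⟩
  have := congrFun h i
  rw [Finset.sum_apply] at this
  simp only [ph, Finset.sum_sub_distrib] at this
  rw [Finset.sum_comm] at this
  simp only [Finset.sum_ite_eq', Pi.zero_apply, sub_eq_zero] at this
  simp only [ite_mul, one_mul, zero_mul]
  rw [← this]
  simp

lemma d3 : Dx 0 = ∅ ∧ ∀ x y, x ≠ 0 → (Dx x ⊆ Dx y → x = y) ∧ (y ≠ 0 → ¬ Disjoint (Dx x) (Dx y)) := by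
  decide +kernel

lemma ind (I : Set (Fin 14)) : M0.Indep I ↔ ∀ x, ↑(Dx x) ⊆ I → x = 0 := by
  refine (li2 ph I).trans ⟨fun h x hx => ?_, fun h T hT h0 => ?_⟩
  · by_contra h1
    exact h1 ((d3.2 x 0 h1).1 (by rw [h _ hx ((zs _).2 ⟨x, rfl⟩)]; simp))
  · obtain ⟨x, rfl⟩ := (zs _).1 h0
    rw [h x hT, d3.1]

lemma circ (C : Set (Fin 14)) : M0.IsCircuit C ↔ ∃ x ≠ 0, C = Dx x := by
  have h1 : ∀ x ≠ 0, M0.Dep (Dx x) := fun x hx =>
    ⟨fun h => hx ((ind _).1 h x subset_rfl), subset_univ _⟩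
  rw [isCircuit_iff]
  constructor
  · rintro ⟨h, h'⟩
    have h2 := h.not_indep
    rw [ind] at h2
    push Not at h2
    obtain ⟨x, h2, h3⟩ := h2
    exact ⟨x, h3, (h' (h1 x h3) h2).symm⟩
  · rintro ⟨x, hx, rfl⟩
    refine ⟨h1 x hx, fun D hD h => ?_⟩
    have h2 := hD.not_indep
    rw [ind] at h2
    push Not at h2
    obtain ⟨y, h2, h3⟩ := h2
    have := (d3.2 y x h3).1 (Finset.coe_subset.1 (h2.trans h))
    subst this
    exact h.antisymm h2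

lemma cyc (D : Finset (Fin 14)) : IsCyc M0 D ↔ ∃ x, D = Dx x := by
  constructor
  · rintro ⟨S, h1, h2, h3⟩
    rcases S.eq_empty_or_nonempty with rfl | ⟨C, hC⟩
    · exact ⟨0, by rw [d3.1]; simpa using h3⟩
    · obtain ⟨x, hx, rfl⟩ := (circ _).1 (h1 C hC)
      have : S = {↑(Dx x)} := eq_singleton_iff_unique_mem.2 ⟨hC, fun C hC' => by
        obtain ⟨y, hy, rfl⟩ := (circ _).1 (h1 C hC')
        by_contra h
        exact (d3.2 y x hy).2 hx (Finset.disjoint_coe.1 (h2 hC' hC h))⟩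
      exact ⟨x, by simpa [this] using h3⟩
  · rintro ⟨x, rfl⟩
    by_cases hx : x = 0
    · exact ⟨∅, by simp, by simp, by simp [hx, d3.1]⟩
    · exact ⟨{↑(Dx x)}, by simpa using (circ _).2 ⟨x, hx, rfl⟩, by simp, by simp⟩

lemma d4 : ∀ e f : Fin 14, ∃ x ≠ 0, e ∈ Dx x ∧ f ∈ Dx x := by decide +kernel

lemma d5 : ∀ e f : Fin 14, ∃ x ≠ 0, e ∈ Dx x ∧ (f ∈ Dx x → f = e) := by decide +kernel

lemma conn : IsConn M0 := ⟨⟨0, trivial⟩, fun e _ f _ _ => by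
  obtain ⟨x, h, h'⟩ := d4 e f
  exact ⟨_, (circ _).2 ⟨x, h, rfl⟩, h'⟩⟩

lemma cos : IsSimple M0✶ := by
  intro C hC
  by_contra h
  obtain ⟨e, he⟩ := hC.nonempty
  have h1 : ∃ f, C ⊆ {e, f} := by
    by_contra h1
    push Not at h1
    obtain ⟨f, hf, h2⟩ := not_subset.1 (h1 e)
    obtain ⟨g, hg, h3⟩ := not_subset.1 (h1 f)
    simp only [mem_insert_iff, mem_singleton_iff, not_or] at h2 h3
    refine h (le_trans (le_of_eq ?_) (encard_le_encard (s := {e, f, g}) ?_))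
    · exact (encard_eq_three.2 ⟨e, f, g, Ne.symm h2.1, Ne.symm h3.1, Ne.symm h3.2, rfl⟩).symm
    · simp [insert_subset_iff, *]
  obtain ⟨f, h1⟩ := h1
  obtain ⟨x, hx, h2, h3⟩ := d5 e f
  obtain ⟨g, ⟨h4, h5⟩, h6⟩ := (((circ _).2 ⟨x, hx, rfl⟩).isCocircuit_inter_nontrivial hC
    ⟨e, h2, he⟩).exists_ne e
  rcases h1 h5 with rfl | rfl
  · exact h6 rfl
  · exact h6 (h3 h4)

lemma d6 : ∀ x, Dx x ⊆ {2, 4, 5, 6, 8, 9, 10, 11, 12, 13} → x = 0 := by decide +kernel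

lemma rk (I : Set (Fin 14)) (hI : M0✶.Indep I) : I.encard ≤ 4 := by
  obtain ⟨⟨B, hB, h1⟩, -⟩ := coindep_iff_exists'.1 hI
  have h2 := ((ind ((({2, 4, 5, 6, 8, 9, 10, 11, 12, 13} : Finset (Fin 14))) : Set _)).2
    fun x hx => d6 x (Finset.coe_subset.1 hx)).encard_le_eRank
  rw [← hB.encard_eq_eRank, encard_coe_eq_coe_finsetCard] at h2
  have h3 := encard_le_encard (subset_univ (I ∪ B))
  rw [encard_union_eq (subset_sdiff.1 h1).2.symm, encard_univ, ENat.card_eq_coe_fintype_card,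
    Fintype.card_fin] at h3
  have h4 : I.encard + 10 ≤ 4 + 10 := le_trans (add_le_add le_rfl h2) h3
  exact (ENat.add_le_add_iff_right (by simp)).1 h4

def ch (x : Fin 16) : ℤ := if ∑ j, bt j x.1 = 1 then -1 else 1

def sg (x : Fin 16) (e : Fin 14) : ℤ := if e ∈ Dx x then -1 else 1

lemma d7 : ∀ x y : Fin 16, (16 * ((if y = x then 1 else 0) - ch x * if y = 0 then 1 else 0) : ℤ) =
    (1 - ch x + ∑ e, (sg x e - ch x)) - 2 * ∑ e, (sg x e - ch x) * if e ∈ Dx y then 1 else 0 := by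
  decide +kernel

lemma ker (u : Fin 16 → ℤ) (h0 : ∑ y, u y = 0)
    (h : ∀ e, ∑ y, (if e ∈ Dx y then 1 else 0) * u y = 0) (x : Fin 16) : u x = ch x * u 0 := by
  have h1 := Finset.sum_congr (rfl : Finset.univ = _) fun y _ => congrArg (· * u y) (d7 x y)
  simp only [sub_mul _ _ (u _), Finset.sum_sub_distrib, mul_assoc, Finset.sum_mul _ _ (u _),
    ← Finset.mul_sum, h0] at h1
  rw [Finset.sum_comm] at h1
  simp only [← Finset.mul_sum, h] at h1
  simp at h1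
  linarith

lemma d8 : ∑ y, ch y = 0 ∧ (∀ e, ∑ y, (if e ∈ Dx y then 1 else 0) * ch y = 0) ∧
    ∑ y, (1 + ch y) = 16 ∧ ∑ y, (1 - ch y) = 16 ∧ ∀ y, ch y = 1 ∨ ch y = -1 := by
  decide +kernel

lemma deg (a b : Fin 16 → ℕ) (h0 : ∑ y, a y = ∑ y, b y) (h7 : ∑ y, a y ≤ 7)
    (h : ∀ e, ∑ y, (if e ∈ Dx y then a y else 0) = ∑ y, if e ∈ Dx y then b y else 0) : a = b := by
  have h1 := ker (fun y => a y - b y) (by
    rw [Finset.sum_sub_distrib, sub_eq_zero]; exact_mod_cast h0) fun e => by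
      simp only [mul_sub, Finset.sum_sub_distrib, sub_eq_zero, ite_mul, one_mul, zero_mul]
      exact_mod_cast h e
  have h8 : ∑ y, 2 * (a y : ℤ) ≤ 14 := by
    rw [← Finset.mul_sum]
    have : ∑ y, (a y : ℤ) ≤ 7 := by exact_mod_cast h7
    linarith
  funext x
  by_contra h2
  rcases lt_trichotomy (a 0) (b 0) with h3 | h3 | h3
  · have : ∑ y, (1 - ch y) ≤ ∑ y, 2 * (a y : ℤ) := Finset.sum_le_sum fun y _ => by
      have := h1 y
      rcases d8.2.2.2.2 y with h | h <;> rw [h] at this ⊢ <;> omega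
    rw [d8.2.2.2.1] at this
    omega
  · have := h1 x
    rw [h3, sub_self, mul_zero] at this
    omega
  · have : ∑ y, (1 + ch y) ≤ ∑ y, 2 * (a y : ℤ) := Finset.sum_le_sum fun y _ => by
      have := h1 y
      rcases d8.2.2.2.2 y with h | h <;> rw [h] at this ⊢ <;> omega
    rw [d8.2.2.1] at this
    omega

end Pool.Agent.CycId
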